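import Mathlib

/-! Ovoids of `PG(3,2^h)`: words with one letter at every digit. Letters: `x = 0, s = 1, t = 2,
f = 3 : Fin 4`; the letter `a` at digit `k` is the function `y i a ^ 2 ^ k` of the point `i`. -/

set_option autoImplicit false

namespace Pool.OVO

open Finset

/-- dual letter: `x <-> f`, `s <-> t` -/
def cj (a : Fin 4) : Fin 4 := Fin.rev a

/-- the alternating form on points -/
def om {F : Type} [Field F] (v w : Fin 4 → F) : F :=
  v 0 * w 3 + v 3 * w 0 + v 1 * w 2 + v 2 * w 1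

/-- the quadratic form `x f + s t` -/
def qf {F : Type} [Field F] (v : Fin 4 → F) : F := v 0 * v 3 + v 1 * v 2

/-- coefficient arrays of words with one letter at every digit -/
abbrev Ar (F : Type) (h : ℕ) : Type := (ZMod h → Fin 4) → F

/-- the four matrices `j_xs, j_xt, j_sf, j_tf` (columns = images of the letters) -/
def Jm (F : Type) [Field F] : Fin 4 → Matrix (Fin 4) (Fin 4) F
  | 0 => fun m n => if (m = 0 ∧ n = 2) ∨ (m = 1 ∧ n = 3) then 1 else 0
  | 1 => fun m n => if (m = 0 ∧ n = 1) ∨ (m = 2 ∧ n = 3) then 1 else 0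
  | 2 => fun m n => if (m = 1 ∧ n = 0) ∨ (m = 3 ∧ n = 2) then 1 else 0
  | 3 => fun m n => if (m = 2 ∧ n = 0) ∨ (m = 3 ∧ n = 1) then 1 else 0

/-- the letter at place `(b, b')` of the Clifford matrix: `gam i b b' = 1` iff that letter is `i` -/
def gam (F : Type) [Field F] : Fin 4 → Fin 4 → Fin 4 → F
  | 0 => fun b c => if (b = 2 ∧ c = 0) ∨ (b = 3 ∧ c = 1) then 1 else 0
  | 1 => fun b c => if (b = 1 ∧ c = 0) ∨ (b = 3 ∧ c = 2) then 1 else 0
  | 2 => fun b c => if (b = 0 ∧ c = 1) ∨ (b = 2 ∧ c = 3) then 1 else 0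
  | 3 => fun b c => if (b = 0 ∧ c = 2) ∨ (b = 1 ∧ c = 3) then 1 else 0

section

variable {F : Type} [Field F] {h : ℕ}

/-- a `4 x 4` matrix acting at digit `d` -/
def op (d : ZMod h) (A : Matrix (Fin 4) (Fin 4) F) : Ar F h →ₗ[F] Ar F h where
  toFun φ := fun I => ∑ a, A (I d) a * φ (Function.update I d a)
  map_add' φ ψ := by
    funext I
    simp only [Pi.add_apply, mul_add, Finset.sum_add_distrib]
  map_smul' c φ := by
    funext I
    simp only [Pi.smul_apply, smul_eq_mul, RingHom.id_apply, Finset.mul_sum]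
    exact Finset.sum_congr rfl (fun a _ => by ring)

/-- matrix unit -/
def eu (F : Type) [Field F] (a b : Fin 4) : Matrix (Fin 4) (Fin 4) F := Matrix.single a b 1

/-- the form on arrays -/
def bf [NeZero h] (φ ψ : Ar F h) : F := ∑ I : ZMod h → Fin 4, φ I * ψ (fun k => cj (I k))

/-- the letter `a` at digit `d` as a function on the points -/
def pw {ι : Type} (y : ι → Fin 4 → F) (d : ZMod h) (a : Fin 4) (i : ι) : F :=
  y i a ^ (2 ^ d.val)

/-- the function of an array -/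
def ev [NeZero h] {ι : Type} (y : ι → Fin 4 → F) : Ar F h →ₗ[F] (ι → F) where
  toFun φ := fun i => ∑ I : ZMod h → Fin 4, φ I * ∏ k, pw y k (I k) i
  map_add' φ ψ := by
    funext i
    simp only [Pi.add_apply, add_mul, Finset.sum_add_distrib]
  map_smul' c φ := by
    funext i
    simp only [Pi.smul_apply, smul_eq_mul, RingHom.id_apply, Finset.mul_sum]
    exact Finset.sum_congr rfl (fun a _ => by ring)

/-- Frobenius shift: the letter at digit `d` goes to digit `d + 1`, coefficients are squared -/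
def sg (φ : Ar F h) : Ar F h := fun I => φ (fun k => I (k + 1)) ^ 2

/-- `T` acts trivially at digit `d` -/
def Tr (d : ZMod h) (T : Ar F h →ₗ[F] Ar F h) : Prop :=
  ∀ (A : Matrix (Fin 4) (Fin 4) F) (φ : Ar F h), T (op d A φ) = op d A (T φ)

/-- `T` is self-adjoint -/
def Sa [NeZero h] (T : Ar F h →ₗ[F] Ar F h) : Prop := ∀ φ ψ : Ar F h, bf (T φ) ψ = bf φ (T ψ)

/-- the identity `Q_m φ = sum (letters at m + 1) (T_u φ)` -/
def Qid [NeZero h] {ι : Type} (y : ι → Fin 4 → F) (m : ZMod h)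
    (T : Fin 4 → Ar F h →ₗ[F] Ar F h) : Prop :=
  ∀ (φ : Ar F h) (i : ι),
    qf (y i) ^ (2 ^ m.val) * ev y φ i = ∑ u, pw y (m + 1) (cj u) i * ev y (T u φ) i

/-- slot expansion of `T_u` at digit `d`: `T_u = D0_u + sum_b (j_b at d) D_{b,u}` -/
def Slot (d : ZMod h) (T D0 : Fin 4 → Ar F h →ₗ[F] Ar F h)
    (D : Fin 4 → Fin 4 → Ar F h →ₗ[F] Ar F h) : Prop :=
  (∀ u, Tr d (D0 u)) ∧ (∀ b u, Tr d (D b u)) ∧
    ∀ u φ, T u φ = D0 u φ + ∑ b, op d (Jm F b) (D b u φ)

end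

/-- the left relation -/
def Lrel {F : Type} [Field F] {h : ℕ} (D : Fin 4 → Fin 4 → Ar F h →ₗ[F] Ar F h)
    (G0 : Fin 4 → Ar F h →ₗ[F] Ar F h) (G : Fin 4 → Fin 4 → Ar F h →ₗ[F] Ar F h) : Prop :=
  ∀ b w m φ, G0 w (D b m φ) + ∑ a, ∑ u, Jm F a u m • G a w (D b u φ) =
    ∑ c, gam F (cj w) b c • D c m φ

/-- the span of the images -/
def BB {F : Type} [Field F] {h : ℕ} (D : Fin 4 → Fin 4 → Ar F h →ₗ[F] Ar F h) :
    Submodule F (Ar F h) := ⨆ b, ⨆ m, LinearMap.range (D b m)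

/-- the operators psi -/
def Psi {F : Type} [Field F] {h : ℕ} (G K : Fin 4 → Fin 4 → Ar F h →ₗ[F] Ar F h)
    (u m n : Fin 4) : Ar F h →ₗ[F] Ar F h :=
  ∑ a, ∑ c, gam F (cj u) a c • (G c (cj m)).comp (K a (cj n))

/-- inverse of the Frobenius shift -/
def sgi {F : Type} [Field F] {h : ℕ} (φ : Ar F h) : Ar F h :=
  fun I => φ (fun k => I (k - 1)) ^ (2 ^ (h - 1))

/-- `T'` is the twist of `T` -/
def Twd {F : Type} [Field F] {h : ℕ} (T T' : Ar F h →ₗ[F] Ar F h) : Prop :=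
  ∀ φ, T' (sg φ) = sg (T φ)

end Pool.OVO
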