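import Pool.Agent.H61.BPA.Asm
import Pool.Agent.H51.QOV.All
import Pool.Agent.H22.OV8.Top

/-!
Top glue of the ovoid theorem: the digit part (`DegStmt`: the ovoid function is
`s t + ∑ M a b u_a ^ 2 u_b ^ (2 ^ k)`, `u = (1, s, t)`) and the affine normal form of board `bpa`
give `EvenStmt` (`q = 2 ^ h ≥ 8`), and with the other cases the frozen statement.
-/

set_option autoImplicit false
set_option linter.unusedSectionVars false

namespace Pool.OVT

open Pool.BPA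

/-- Output of the digit part: the ovoid function has only one slot `k`, and degree two there. -/
def DegStmt : Prop := ∀ (F : Type) [Field F] [Fintype F] [CharP F 2] (h : ℕ) [NeZero h],
  3 ≤ h → Fintype.card F = 2 ^ h → ∀ f : F → F → F,
  (∀ u w : F × F, u ≠ w → f u.1 u.2 + f w.1 w.2 ≠ u.1 * w.2 + u.2 * w.1) →
  ∃ k : ZMod h, k ≠ 0 ∧ k ≠ 1 ∧ ∃ M : Fin 3 → Fin 3 → F, ∀ s t : F,
    f s t = s * t + ∑ a, ∑ b, M a b * (![1, s, t] a) ^ 2 * (![1, s, t] b) ^ (2 ^ k.val)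

section d3
variable {F : Type} [Field F] [CharP F 2]

/-- third difference of a product of two affine functions. -/
theorem d3_mul {V : Type} [AddCommGroup V] (A B : V → F) (hA : ∀ x y, A (x + y) = A x + A y + A 0)
    (hB : ∀ x y, B (x + y) = B x + B y + B 0) (x y z : V) :
    A (x + y + z) * B (x + y + z) + A (x + y) * B (x + y) + A (x + z) * B (x + z) +
      A (y + z) * B (y + z) + A x * B x + A y * B y + A z * B z + A 0 * B 0 = 0 := by
  have h2 : (2 : F) = 0 := CharP.cast_eq_zero F 2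
  rw [hA (x + y) z, hB (x + y) z, hA x y, hB x y, hA x z, hB x z, hA y z, hB y z]
  linear_combination (2 * (A x * B x + A y * B y + A z * B z) + A x * B y + A y * B x +
    A x * B z + A z * B x + A y * B z + A z * B y + 2 * (A x * B 0 + A 0 * B x) +
    2 * (A y * B 0 + A 0 * B y) + 2 * (A z * B 0 + A 0 * B z) + 4 * (A 0 * B 0)) * h2

/-- the third difference of the functions of `DegStmt` vanishes. -/
theorem d3_deg (n : ℕ) (f : F → F → F) (M : Fin 3 → Fin 3 → F)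
    (hM : ∀ s t : F, f s t = s * t +
      ∑ a, ∑ b, M a b * (![1, s, t] a) ^ 2 * (![1, s, t] b) ^ (2 ^ n))
    (s₁ t₁ s₂ t₂ s₃ t₃ : F) :
    f (s₁ + s₂ + s₃) (t₁ + t₂ + t₃) + f (s₁ + s₂) (t₁ + t₂) + f (s₁ + s₃) (t₁ + t₃) +
      f (s₂ + s₃) (t₂ + t₃) + f s₁ t₁ + f s₂ t₂ + f s₃ t₃ + f 0 0 = 0 := by
  have h2 : (2 : F) = 0 := CharP.cast_eq_zero F 2
  have hself : ∀ a : F, a + a = 0 := fun a => by linear_combination a * h2
  have hA : ∀ (a : Fin 3) (x y : F × F), (![1, (x + y).1, (x + y).2] a : F) =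
      ![1, x.1, x.2] a + ![1, y.1, y.2] a + ![1, (0 : F × F).1, (0 : F × F).2] a := by
    intro a x y
    fin_cases a
    · simp [hself]
    · simp
    · simp
  have hp : ∀ (m : ℕ) (a : Fin 3) (x y : F × F), (![1, (x + y).1, (x + y).2] a : F) ^ (2 ^ m) =
      (![1, x.1, x.2] a) ^ (2 ^ m) + (![1, y.1, y.2] a) ^ (2 ^ m) +
        (![1, (0 : F × F).1, (0 : F × F).2] a) ^ (2 ^ m) := by
    intro m a x y
    rw [hA, add_pow_char_pow, add_pow_char_pow]
  have key := fun (a b : Fin 3) => d3_mul (V := F × F)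
    (fun x => (![1, x.1, x.2] a : F) ^ (2 ^ 1)) (fun x => (![1, x.1, x.2] b : F) ^ (2 ^ n))
    (hp 1 a) (hp n b) (s₁, t₁) (s₂, t₂) (s₃, t₃)
  have hst := d3_mul (V := F × F) (fun x => x.1) (fun x => x.2) (fun x y => by simp)
    (fun x y => by simp) (s₁, t₁) (s₂, t₂) (s₃, t₃)
  simp only [hM]
  have hsum : ∑ a : Fin 3, ∑ b : Fin 3, M a b * (
      (![1, s₁ + s₂ + s₃, t₁ + t₂ + t₃] a : F) ^ 2 * (![1, s₁ + s₂ + s₃, t₁ + t₂ + t₃] b) ^ (2 ^ n) +
      (![1, s₁ + s₂, t₁ + t₂] a) ^ 2 * (![1, s₁ + s₂, t₁ + t₂] b) ^ (2 ^ n) +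
      (![1, s₁ + s₃, t₁ + t₃] a) ^ 2 * (![1, s₁ + s₃, t₁ + t₃] b) ^ (2 ^ n) +
      (![1, s₂ + s₃, t₂ + t₃] a) ^ 2 * (![1, s₂ + s₃, t₂ + t₃] b) ^ (2 ^ n) +
      (![1, s₁, t₁] a) ^ 2 * (![1, s₁, t₁] b) ^ (2 ^ n) +
      (![1, s₂, t₂] a) ^ 2 * (![1, s₂, t₂] b) ^ (2 ^ n) +
      (![1, s₃, t₃] a) ^ 2 * (![1, s₃, t₃] b) ^ (2 ^ n) +
      (![1, 0, 0] a) ^ 2 * (![1, 0, 0] b) ^ (2 ^ n)) = 0 := by
    refine Finset.sum_eq_zero fun a _ => Finset.sum_eq_zero fun b _ => ?_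
    have := key a b
    simp only [pow_one, Prod.mk_add_mk, Prod.fst_zero, Prod.snd_zero] at this
    rw [this, mul_zero]
  simp only [mul_add, Finset.sum_add_distrib] at hsum
  simp only [Prod.mk_add_mk, Prod.fst_zero, Prod.snd_zero] at hst
  simp only [← mul_assoc] at hsum
  linear_combination hst + hsum

end d3

/-- `EvenStmt` of board `bpa` from the affine normal form and the digit part. -/
theorem even_of (haff : AffStmt) (hdeg : DegStmt) : EvenStmt := by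
  intro F _ _ S h h3 hF hS hcap
  haveI : CharP F 2 := charP_of_card_eq_prime_pow (f := h) hF
  haveI : NeZero h := ⟨by omega⟩
  have h4c : 4 ≤ Fintype.card F := by
    rw [hF]
    calc 4 = 2 ^ 2 := by norm_num
      _ ≤ 2 ^ h := Nat.pow_le_pow_right (by norm_num) (by omega)
  obtain ⟨A, f, hmem, hov⟩ := haff F S h4c hS hcap
  obtain ⟨k, hk0, hk1, M, hM⟩ := hdeg F h h3 hF f hov
  rcases Nat.lt_or_ge h 4 with h4 | h4
  · have hh : h = 3 := by omega
    subst hh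
    have hk : k.val = 2 := by
      revert hk0 hk1
      clear hM
      revert k
      decide
    rw [hk] at hM
    refine Pool.Agent.H22.OV8.top8 F S (by rw [hF]; norm_num) hcap A f hmem hov ?_
    refine ⟨M 0 0, M 1 0, M 2 0, M 0 1, M 0 2, M 1 2, M 2 1, M 1 1, M 2 2, ?_⟩
    intro s t
    rw [hM]
    simp only [Fin.sum_univ_three, Matrix.cons_val_zero, Matrix.cons_val_one, Matrix.cons_val]
    ring
  · exact Pool.Agent.H51.QOV.all_top F S h h4 hF hS hcap ⟨A, f, d3_deg k.val f M hM, hmem⟩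

/-- The statement of `S11343` from the pieces. -/
theorem frozen_of (haff : AffStmt) (hdeg : DegStmt) (hQ : QoddStmt) (h4 : FourStmt) (h2 : TwoStmt) :
    FrozenStmt := t_asm (even_of haff hdeg) hQ h4 h2

end Pool.OVT
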