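import Pool.Agent.H40.OVO.Fam
import Pool.Agent.H40.OVO.Top
import Pool.Agent.H41.OVO.Stmt
import Pool.Agent.H61.BPA.All

/-!
Glue: layer 1 (`BaseStmt`), layer 2 (`LayerTwoStmt`) and the degree theorem (`DegOneStmt`) give
`DegStmt`, hence the frozen statement.
-/

set_option autoImplicit false
set_option linter.unusedSectionVars false

namespace Pool.OVT

open Pool.OVE Pool.BPA

section

variable {F : Type} [Field F] [Fintype F] [DecidableEq F]

/-- the ovoid in affine normal form as a finite set of vectors -/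
def Omf (f : F → F → F) : Finset (Fin 4 → F) := Finset.univ.image (yf f)

theorem yf_inj [CharP F 2] (f : F → F → F)
    (hov : ∀ u w : F × F, u ≠ w → f u.1 u.2 + f w.1 w.2 ≠ u.1 * w.2 + u.2 * w.1) :
    Function.Injective (yf f) := by
  have h2 : (2 : F) = 0 := CharP.cast_eq_zero F 2
  intro i j hij
  by_contra hne
  apply om_yf_ne f hov i j hne
  rw [hij]
  simp only [om]
  linear_combination (yf f j 0 * yf f j 3 + yf f j 1 * yf f j 2) * h2

theorem card_Omf [CharP F 2] (f : F → F → F)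
    (hov : ∀ u w : F × F, u ≠ w → f u.1 u.2 + f w.1 w.2 ≠ u.1 * w.2 + u.2 * w.1) :
    (Omf f).card = Fintype.card F ^ 2 + 1 := by
  rw [Omf, Finset.card_image_of_injective _ (yf_inj f hov), Finset.card_univ, card_yf]

theorem ov_Omf [CharP F 2] (f : F → F → F)
    (hov : ∀ u w : F × F, u ≠ w → f u.1 u.2 + f w.1 w.2 ≠ u.1 * w.2 + u.2 * w.1) :
    ∀ y ∈ Omf f, ∀ z ∈ Omf f, y ≠ z → om y z ≠ 0 := by
  intro y hy z hz hyz
  obtain ⟨i, -, rfl⟩ := Finset.mem_image.mp hy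
  obtain ⟨j, -, rfl⟩ := Finset.mem_image.mp hz
  exact om_yf_ne f hov i j fun e => hyz (by rw [e])

theorem mem_Omf_some (f : F → F → F) (s t : F) : ![1, s, t, f s t] ∈ Omf f :=
  Finset.mem_image.mpr ⟨some (s, t), Finset.mem_univ _, rfl⟩

theorem mem_Omf_none (f : F → F → F) : ![0, 0, 0, 1] ∈ Omf f :=
  Finset.mem_image.mpr ⟨none, Finset.mem_univ _, rfl⟩

end

/-- The degree theorem: all slots but one trivial; the points of the affine form belong to `Om`. -/
def DegOneStmt : Prop :=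
  ∀ (F : Type) [Field F] [Fintype F] [CharP F 2] (h : ℕ) [NeZero h] (Om : Finset (Fin 4 → F))
    (Θ : Fin 4 → Module.End F (E F h)), Base Om Θ → ∀ f : F → F → F,
    (∀ s t : F, ![1, s, t, f s t] ∈ Om) → ![0, 0, 0, 1] ∈ Om →
    ∀ k : ZMod h, k ≠ 0 → k ≠ 1 → (∀ m, m ≠ k → Trv Θ m) →
    ∃ M : Fin 3 → Fin 3 → F, ∀ s t : F,
      f s t = s * t + ∑ a, ∑ b, M a b * (![1, s, t] a) ^ 2 * (![1, s, t] b) ^ (2 ^ k.val)

theorem deg_of (hB : BaseStmt) (hL : LayerTwoStmt) (hD : DegOneStmt) : DegStmt := by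
  classical
  intro F _ _ _ h _ h3 hq f hov
  obtain ⟨Θ, hΘ⟩ := hB F h (Omf f) hq h3 (card_Omf f hov) (ov_Omf f hov)
  obtain ⟨k, hk0, hk1, hk⟩ := hL F h (Omf f) Θ hΘ
  obtain ⟨M, hM⟩ := hD F h (Omf f) Θ hΘ f (mem_Omf_some f) (mem_Omf_none f) k hk0 hk1 hk
  exact ⟨k, hk0, hk1, M, hM⟩

/-- The ovoid theorem from layer 1, layer 2 and the degree theorem. -/
theorem all_of (hB : BaseStmt) (hL : LayerTwoStmt) (hD : DegOneStmt) : FrozenStmt :=
  Pool.BPA.frozen_of_even (even_of Pool.BPA.aff (deg_of hB hL hD))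

end Pool.OVT
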