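import Pool.Agent.H41.OVO.Defs

/-!
The family of the `q² + 1` vectors of an ovoid in affine normal form, over `H41/OVO/Defs`.
-/

set_option autoImplicit false

namespace Pool.OVT

open Pool.OVE

variable {F : Type} [Field F]

/-- the points of the ovoid as a family over `Option (F × F)` (`none` is the point at infinity) -/
def yf (f : F → F → F) : Option (F × F) → Fin 4 → F
  | none => ![0, 0, 0, 1]
  | some p => ![1, p.1, p.2, f p.1 p.2]

@[simp] theorem yf_none (f : F → F → F) : yf f none = ![0, 0, 0, 1] := rfl

@[simp] theorem yf_some (f : F → F → F) (p : F × F) : yf f (some p) = ![1, p.1, p.2, f p.1 p.2] :=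
  rfl

theorem card_yf [Fintype F] : Fintype.card (Option (F × F)) = Fintype.card F ^ 2 + 1 := by
  rw [Fintype.card_option, Fintype.card_prod, sq]

theorem om_yf_none_some (f : F → F → F) (p : F × F) : om (yf f none) (yf f (some p)) = 1 := by
  simp [om]

theorem om_yf_some_none (f : F → F → F) (p : F × F) : om (yf f (some p)) (yf f none) = 1 := by
  simp [om]

theorem om_yf_ne [CharP F 2] (f : F → F → F)
    (hov : ∀ u w : F × F, u ≠ w → f u.1 u.2 + f w.1 w.2 ≠ u.1 * w.2 + u.2 * w.1)
    (i j : Option (F × F)) (hij : i ≠ j) : om (yf f i) (yf f j) ≠ 0 := by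
  have h2 : (2 : F) = 0 := CharP.cast_eq_zero F 2
  rcases i with _ | p <;> rcases j with _ | r
  · exact absurd rfl hij
  · rw [om_yf_none_some]; exact one_ne_zero
  · rw [om_yf_some_none]; exact one_ne_zero
  · have hpr : p ≠ r := fun e => hij (by rw [e])
    intro h0
    apply hov p r hpr
    simp only [om, yf_some, Matrix.cons_val_zero, Matrix.cons_val_one, Matrix.cons_val] at h0
    linear_combination h0 - (p.1 * r.2 + p.2 * r.1) * h2

end Pool.OVT
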